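import Pool.Agent.W606.PS.Stm

/-!
Project PS (helper606): a model by compact connected subsets of the plane gives a model by finite
connected sets of the triangular lattice.
-/

set_option autoImplicit false

open Set Relation Topology

namespace Pool.Agent.W63.PS.Ana2

open Pool.Agent.W606.PS

/-- The four lattice points near `z / δ`. -/
def blk (δ : ℝ) (z : ℂ) : Set (ℤ × ℤ) :=
  {p | (p.1 = ⌊z.re / δ⌋ ∨ p.1 = ⌊z.re / δ⌋ + 1) ∧ (p.2 = ⌊z.im / δ⌋ ∨ p.2 = ⌊z.im / δ⌋ + 1)}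

/-- The corner of the block. -/
noncomputable def base (δ : ℝ) (z : ℂ) : ℤ × ℤ := (⌊z.re / δ⌋, ⌊z.im / δ⌋)

/-- The discretisation of a set. -/
def Di (δ : ℝ) (K : Set ℂ) : Set (ℤ × ℤ) := {p | ∃ z ∈ K, p ∈ blk δ z}

theorem base_mem (δ : ℝ) (z : ℂ) : base δ z ∈ blk δ z := ⟨Or.inl rfl, Or.inl rfl⟩

theorem blk_sub {δ : ℝ} {K : Set ℂ} {z : ℂ} (hz : z ∈ K) : blk δ z ⊆ Di δ K :=
  fun _ hp => ⟨z, hz, hp⟩

theorem lat_adj_iff (p q : ℤ × ℤ) : Lat.Adj p q ↔ p ≠ q ∧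
    (((q.1 = p.1 + 1 ∧ q.2 = p.2) ∨ (q.1 = p.1 ∧ q.2 = p.2 + 1) ∨
      (q.1 = p.1 + 1 ∧ q.2 = p.2 + 1)) ∨
     ((p.1 = q.1 + 1 ∧ p.2 = q.2) ∨ (p.1 = q.1 ∧ p.2 = q.2 + 1) ∨
      (p.1 = q.1 + 1 ∧ p.2 = q.2 + 1))) := by
  unfold Pool.Agent.W606.PS.Lat
  rw [SimpleGraph.fromRel_adj]

theorem base_adj {δ : ℝ} {z : ℂ} {p : ℤ × ℤ} (hp : p ∈ blk δ z) :
    p = base δ z ∨ Lat.Adj (base δ z) p := by
  obtain ⟨h1, h2⟩ := hp
  obtain ⟨a, b⟩ := p
  simp only [base] at *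
  by_cases h : (a, b) = ((⌊z.re / δ⌋ : ℤ), (⌊z.im / δ⌋ : ℤ))
  · exact Or.inl h
  · right
    rw [lat_adj_iff]
    refine ⟨fun h' => h h'.symm, Or.inl ?_⟩
    rcases h1 with h1 | h1 <;> rcases h2 with h2 | h2
    · exact absurd (by rw [h1, h2]) h
    · exact Or.inr (Or.inl ⟨h1, h2⟩)
    · exact Or.inl ⟨h1, h2⟩
    · exact Or.inr (Or.inr ⟨h1, h2⟩)

/-- Inside a set containing the block of `z`, each point of the block is joined to the corner. -/
theorem rtg_blk {δ : ℝ} {z : ℂ} {S : Set (ℤ × ℤ)} (hS : blk δ z ⊆ S) {p : ℤ × ℤ}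
    (hp : p ∈ blk δ z) :
    ReflTransGen (fun a b => Lat.Adj a b ∧ a ∈ S ∧ b ∈ S) (base δ z) p := by
  rcases base_adj hp with h | h
  · rw [h]
  · exact ReflTransGen.single ⟨h, hS (base_mem δ z), hS hp⟩

theorem near_re {δ : ℝ} (hδ : 0 < δ) {z : ℂ} {p : ℤ × ℤ} (hp : p ∈ blk δ z) :
    |δ * (p.1 : ℝ) - z.re| ≤ δ ∧ |δ * (p.2 : ℝ) - z.im| ≤ δ := by
  have key : ∀ (x : ℝ) (a : ℤ), (a = ⌊x / δ⌋ ∨ a = ⌊x / δ⌋ + 1) → |δ * (a : ℝ) - x| ≤ δ := by
    intro x a ha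
    have h1 := Int.floor_le (x / δ)
    have h2 := Int.lt_floor_add_one (x / δ)
    have hx : x = δ * (x / δ) := by field_simp
    have e : δ * (a : ℝ) - x = δ * ((a : ℝ) - x / δ) := by rw [mul_sub, ← hx]
    rw [e, abs_mul, abs_of_pos hδ]
    have h3 : |(a : ℝ) - x / δ| ≤ 1 := by
      rw [abs_le]
      rcases ha with ha | ha
      · rw [ha]
        constructor <;> linarith
      · rw [ha]
        push_cast
        constructor <;> linarith
    calc δ * |(a : ℝ) - x / δ| ≤ δ * 1 := mul_le_mul_of_nonneg_left h3 hδ.le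
      _ = δ := mul_one δ
  exact ⟨key _ _ hp.1, key _ _ hp.2⟩

theorem dist_le_re_im (z w : ℂ) : dist z w ≤ |z.re - w.re| + |z.im - w.im| := by
  rw [Complex.dist_eq]
  simpa using Complex.norm_le_abs_re_add_abs_im (z - w)

/-- Equal or adjacent lattice points come from near points of the plane. -/
theorem near_of_adj {δ : ℝ} (hδ : 0 < δ) {z w : ℂ} {p q : ℤ × ℤ} (hp : p ∈ blk δ z)
    (hq : q ∈ blk δ w) (h : p = q ∨ Lat.Adj p q) : dist z w < 10 * δ := by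
  have h1 := near_re hδ hp
  have h2 := near_re hδ hq
  have h3 : |p.1 - q.1| ≤ 1 ∧ |p.2 - q.2| ≤ 1 := by
    rcases h with h | h
    · rw [h]; simp
    · rw [lat_adj_iff] at h
      constructor <;> rw [abs_le] <;> omega
  have h4 : |(p.1 : ℝ) - (q.1 : ℝ)| ≤ 1 ∧ |(p.2 : ℝ) - (q.2 : ℝ)| ≤ 1 := by
    constructor
    · exact_mod_cast h3.1
    · exact_mod_cast h3.2
  have key : ∀ (a b x y : ℝ), |δ * a - x| ≤ δ → |δ * b - y| ≤ δ → |a - b| ≤ 1 →
      |x - y| ≤ 3 * δ := by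
    intro a b x y ha hb hab
    rw [abs_le] at *
    have h5 : δ * (a - b) ≤ δ * 1 := mul_le_mul_of_nonneg_left hab.2 hδ.le
    have h6 : δ * (-1) ≤ δ * (a - b) := mul_le_mul_of_nonneg_left hab.1 hδ.le
    constructor
    · nlinarith
    · nlinarith
  have h5 := key _ _ _ _ h1.1 h2.1 h4.1
  have h6 := key _ _ _ _ h1.2 h2.2 h4.2
  have h7 := dist_le_re_im z w
  linarith

/-- Blocks of near points intersect. -/
theorem blk_inter {δ : ℝ} (hδ : 0 < δ) {z w : ℂ} (h : dist z w < δ) :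
    (blk δ z ∩ blk δ w).Nonempty := by
  have key : ∀ x y : ℝ, |x - y| < δ → ∃ a : ℤ, (a = ⌊x / δ⌋ ∨ a = ⌊x / δ⌋ + 1) ∧
      (a = ⌊y / δ⌋ ∨ a = ⌊y / δ⌋ + 1) := by
    intro x y hxy
    have h1 : |x / δ - y / δ| < 1 := by
      rw [← sub_div, abs_div, abs_of_pos hδ, div_lt_one hδ]
      exact hxy
    rw [abs_lt] at h1
    have hx1 := Int.floor_le (x / δ)
    have hx2 := Int.lt_floor_add_one (x / δ)
    have hy1 := Int.floor_le (y / δ)
    have hy2 := Int.lt_floor_add_one (y / δ)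
    have h2 : (⌊x / δ⌋ : ℝ) < (⌊y / δ⌋ : ℝ) + 2 := by linarith [h1.2]
    have h3 : (⌊y / δ⌋ : ℝ) < (⌊x / δ⌋ : ℝ) + 2 := by linarith [h1.1]
    have h2' : ⌊x / δ⌋ < ⌊y / δ⌋ + 2 := by exact_mod_cast h2
    have h3' : ⌊y / δ⌋ < ⌊x / δ⌋ + 2 := by exact_mod_cast h3
    refine ⟨max ⌊x / δ⌋ ⌊y / δ⌋, ?_, ?_⟩
    · rcases max_choice ⌊x / δ⌋ ⌊y / δ⌋ with h | h
      · exact Or.inl h
      · have : ⌊x / δ⌋ ≤ max ⌊x / δ⌋ ⌊y / δ⌋ := le_max_left _ _
        omega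
    · rcases max_choice ⌊x / δ⌋ ⌊y / δ⌋ with h | h
      · have : ⌊y / δ⌋ ≤ max ⌊x / δ⌋ ⌊y / δ⌋ := le_max_right _ _
        omega
      · exact Or.inl h
  have hre : |z.re - w.re| < δ := by
    refine lt_of_le_of_lt ?_ h
    rw [Complex.dist_eq]
    simpa using Complex.abs_re_le_norm (z - w)
  have him : |z.im - w.im| < δ := by
    refine lt_of_le_of_lt ?_ h
    rw [Complex.dist_eq]
    simpa using Complex.abs_im_le_norm (z - w)
  obtain ⟨a, ha1, ha2⟩ := key _ _ hre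
  obtain ⟨b, hb1, hb2⟩ := key _ _ him
  exact ⟨(a, b), ⟨ha1, hb1⟩, ⟨ha2, hb2⟩⟩

/-- The discretisation of a connected set is connected. -/
theorem con_Di {δ : ℝ} (hδ : 0 < δ) {K : Set ℂ} (hK : IsConnected K) : Con Lat (Di δ K) := by
  obtain ⟨z0, hz0⟩ := hK.nonempty
  have hj : ∀ z ∈ K, ∀ w ∈ K, ReflTransGen (fun a b => Lat.Adj a b ∧ a ∈ Di δ K ∧ b ∈ Di δ K)
      (base δ z) (base δ w) := by
    intro z hz w hw
    refine hK.isPreconnected.induction₂ (fun z w => ReflTransGen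
      (fun a b => Lat.Adj a b ∧ a ∈ Di δ K ∧ b ∈ Di δ K) (base δ z) (base δ w)) ?_ ?_ ?_ hz hw
    · intro x hx
      have hb : ∀ᶠ y in 𝓝[K] x, dist y x < δ :=
        mem_nhdsWithin_of_mem_nhds (Metric.ball_mem_nhds x hδ)
      filter_upwards [hb, self_mem_nhdsWithin] with y hy hyK
      rw [dist_comm] at hy
      obtain ⟨p, hp1, hp2⟩ := blk_inter hδ hy
      exact (rtg_blk (blk_sub hx) hp1).trans (rtg_symm (rtg_blk (blk_sub hyK) hp2))
    · intro x y z _ _ _ h1 h2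
      exact h1.trans h2
    · intro x y _ _ h
      exact rtg_symm h
  refine con_of_base (u := base δ z0) (blk_sub hz0 (base_mem δ z0)) ?_
  rintro p ⟨z, hz, hp⟩
  exact (hj z0 hz0 z hz).trans (rtg_blk (blk_sub hz) hp)

/-- The discretisation of a bounded set is finite. -/
theorem finite_Di {δ : ℝ} (hδ : 0 < δ) {K : Set ℂ} (hK : IsCompact K) : (Di δ K).Finite := by
  obtain ⟨R, hR⟩ := hK.isBounded.exists_norm_le
  have hsub : Di δ K ⊆ (Icc (⌊-R / δ⌋) (⌊R / δ⌋ + 1)) ×ˢ (Icc (⌊-R / δ⌋) (⌊R / δ⌋ + 1)) := by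
    rintro ⟨a, b⟩ ⟨z, hz, h1, h2⟩
    have hzR := hR z hz
    have key : ∀ (x : ℝ) (c : ℤ), |x| ≤ R → (c = ⌊x / δ⌋ ∨ c = ⌊x / δ⌋ + 1) →
        c ∈ Icc (⌊-R / δ⌋) (⌊R / δ⌋ + 1) := by
      intro x c hx hc
      rw [abs_le] at hx
      have e1 : ⌊-R / δ⌋ ≤ ⌊x / δ⌋ := Int.floor_le_floor (div_le_div_of_nonneg_right hx.1 hδ.le)
      have e2 : ⌊x / δ⌋ ≤ ⌊R / δ⌋ := Int.floor_le_floor (div_le_div_of_nonneg_right hx.2 hδ.le)
      rw [mem_Icc]
      omega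
    exact ⟨key z.re a ((Complex.abs_re_le_norm z).trans hzR) h1,
      key z.im b ((Complex.abs_im_le_norm z).trans hzR) h2⟩
  exact ((finite_Icc _ _).prod (finite_Icc _ _)).subset hsub

/-- Finitely many compact sets: a common lower bound for the distances of the disjoint ones. -/
theorem exists_gap {I : Type} [Fintype I] (K : I → Set ℂ) (hK : ∀ i, IsCompact (K i)) :
    ∃ d : ℝ, 0 < d ∧ ∀ i j, Disjoint (K i) (K j) → ∀ z ∈ K i, ∀ w ∈ K j, d ≤ dist z w := by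
  classical
  have h1 : ∀ p : I × I, ∃ d : ℝ, 0 < d ∧ (Disjoint (K p.1) (K p.2) →
      ∀ z ∈ K p.1, ∀ w ∈ K p.2, d ≤ dist z w) := by
    intro p
    by_cases hp : Disjoint (K p.1) (K p.2)
    · obtain ⟨r, hr, h⟩ := Metric.exists_pos_forall_lt_edist (hK p.1) (hK p.2).isClosed hp
      refine ⟨r, by exact_mod_cast hr, fun _ z hz w hw => ?_⟩
      have h2 := h z hz w hw
      rw [edist_nndist] at h2
      have h3 : r < nndist z w := by exact_mod_cast h2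
      exact le_of_lt (by exact_mod_cast h3)
    · exact ⟨1, one_pos, fun h => absurd h hp⟩
  choose f hf0 hf using h1
  rcases isEmpty_or_nonempty I with hI | hI
  · exact ⟨1, one_pos, fun i => (hI.false i).elim⟩
  · obtain ⟨p0, -, hp0⟩ := Finset.exists_min_image (Finset.univ : Finset (I × I)) f
      ⟨(Classical.arbitrary I, Classical.arbitrary I), Finset.mem_univ _⟩
    refine ⟨f p0, hf0 p0, ?_⟩
    intro i j hij z hz w hw
    exact (hp0 (i, j) (Finset.mem_univ _)).trans (hf (i, j) hij z hz w hw)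

theorem main : S_ANA2 := by
  classical
  intro A _ G Kv Ke hM
  obtain ⟨hv, he, hvv, hev, hev', hee⟩ := hM
  set K : A ⊕ Sym2 A → Set ℂ := fun i => match i with
    | Sum.inl u => Kv u
    | Sum.inr e => if e ∈ G.edgeSet then Ke e else ∅ with hKdef
  have hKv : ∀ u, K (Sum.inl u) = Kv u := fun u => rfl
  have hKe : ∀ e ∈ G.edgeSet, K (Sum.inr e) = Ke e := fun e he => if_pos he
  have hKc : ∀ i, IsCompact (K i) := by
    rintro (u | e)
    · exact (hv u).1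
    · by_cases h : e ∈ G.edgeSet
      · rw [hKe e h]; exact (he e h).1
      · have : K (Sum.inr e) = ∅ := if_neg h
        rw [this]; exact isCompact_empty
  obtain ⟨d, hd, hgap⟩ := exists_gap K hKc
  have hδ : 0 < d / 10 := by positivity
  have hsep : ∀ i j, Disjoint (K i) (K j) → Disjoint (Di (d / 10) (K i)) (Di (d / 10) (K j)) ∧
      ¬ Tch Lat (Di (d / 10) (K i)) (Di (d / 10) (K j)) := by
    intro i j hij
    constructor
    · rw [Set.disjoint_left]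
      rintro p ⟨z, hz, hp⟩ ⟨w, hw, hq⟩
      have h1 := near_of_adj hδ hp hq (Or.inl rfl)
      have h2 := hgap i j hij z hz w hw
      linarith
    · rintro ⟨p, ⟨z, hz, hp⟩, q, ⟨w, hw, hq⟩, hadj⟩
      have h1 := near_of_adj hδ hp hq (Or.inr hadj)
      have h2 := hgap i j hij z hz w hw
      linarith
  refine ⟨fun u => Di (d / 10) (K (Sum.inl u)), fun e => Di (d / 10) (K (Sum.inr e)),
    ⟨?_, ?_, ?_, ?_, ?_, ?_⟩, fun u => finite_Di hδ (hKc (Sum.inl u)),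
    fun e => finite_Di hδ (hKc (Sum.inr e))⟩
  · intro u
    exact con_Di hδ (hv u).2
  · intro e h
    show Con Lat (Di (d / 10) (K (Sum.inr e)))
    rw [hKe e h]
    exact con_Di hδ (he e h).2
  · intro u v huv
    exact hsep (Sum.inl u) (Sum.inl v) (hvv u v huv)
  · intro e h u hu
    obtain ⟨z, hz1, hz2⟩ := hev e h u hu
    rw [← hKe e h] at hz1
    exact ⟨base (d / 10) z, blk_sub hz1 (base_mem _ z),
      blk_sub (K := K (Sum.inl u)) hz2 (base_mem _ z)⟩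
  · intro e h u hu
    refine hsep (Sum.inr e) (Sum.inl u) ?_
    rw [hKe e h]
    exact hev' e h u hu
  · intro e h e' h' hne
    refine hsep (Sum.inr e) (Sum.inr e') ?_
    rw [hKe e h, hKe e' h']
    exact hee e h e' h' hne

end Pool.Agent.W63.PS.Ana2
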